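import Pool.Agent.Helper3.TP.St
import Pool.Agent.Helper80.TL.M_FAR1

/-! Project TP (MP_86d903), module SCAT (helper22). -/

set_option autoImplicit false

open Finset
open MP86d903 (Valid Lit inside mem_inside pt flip Clause Ineq clauseIneq vsF ngF)
open Helper80.SR (Exp Closed Cl Sm)
open Helper3.TL Helper3.TP
open Helper80.TL (mem_nb near_succ near_zero near_mono_left near_mono_right)

namespace Helper22.TP

section
variable {ι V : Type} [DecidableEq ι] [Fintype ι] [DecidableEq V] [Fintype V]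
  {vs : ι → Finset V} {q f : ℕ} {A Y : Finset V} {W : Fin f → Finset V}

private theorem step {j : ℕ} {X : Finset V} {c : ι} {x v : V} (hx : x ∈ vs c)
    (hxX : x ∈ near vs A j X) (hv : v ∈ vs c) (hA : v ∉ A) : v ∈ near vs A (j + 1) X := by
  rw [near_succ]
  exact mem_nb.mpr (Or.inr ⟨⟨c, ⟨x, hx, hxX⟩, hv⟩, hA⟩)

private theorem main (hAY : A ⊆ Y) (hY : SC vs 3 q Y)
    (hW : ∀ k, Disjoint (W k) Y ∧ (W k).card ≤ 3 ∧ Closed vs q (Y ∪ W k))
    (hd : ∀ k l, k ≠ l → Disjoint (near vs A 10 (W k)) (near vs A 10 (W l))) :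
    ∀ n : ℕ, ∀ S : Finset ι, S.card = n → S.card ≤ q →
      (∀ c ∈ S, ¬ vs c ⊆ Y ∪ univ.biUnion W) →
      S.card ≤ (S.biUnion vs \ (Y ∪ univ.biUnion W)).card ∧
        (S.Nonempty → S.card < (S.biUnion vs \ (Y ∪ univ.biUnion W)).card) := by
  intro n
  induction n using Nat.strong_induction_on with
  | _ n ih =>
  intro S hn hq hc
  obtain ⟨R, hR⟩ : ∃ R, R = Y ∪ univ.biUnion W := ⟨_, rfl⟩
  rw [← hR] at hc ih ⊢
  have hYR : Y ⊆ R := by rw [hR]; exact subset_union_left
  have hWR : ∀ k, W k ⊆ R := by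
    intro k
    rw [hR]
    exact (subset_biUnion_of_mem W (mem_univ k)).trans subset_union_right
  suffices h : S.Nonempty → S.card < (S.biUnion vs \ R).card by
    refine ⟨?_, h⟩
    rcases S.eq_empty_or_nonempty with he | hne
    · rw [he]; simp
    · exact (h hne).le
  intro hS
  obtain ⟨Sk, hSk⟩ : ∃ Sk : Fin f → ℕ → Finset ι, ∀ k j,
      Sk k j = S.filter (fun c => ¬ Disjoint (vs c) (near vs A j (W k))) :=
    ⟨fun k j => S.filter (fun c => ¬ Disjoint (vs c) (near vs A j (W k))), fun _ _ => rfl⟩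
  have hmem : ∀ k j c, c ∈ Sk k j ↔ c ∈ S ∧ ∃ x ∈ vs c, x ∈ near vs A j (W k) := by
    intro k j c
    rw [hSk, mem_filter, Finset.not_disjoint_iff]
  have hsubS : ∀ k j, Sk k j ⊆ S := fun k j c h => ((hmem k j c).mp h).1
  have hmono : ∀ k j, Sk k j ⊆ Sk k (j + 1) := by
    intro k j c h
    obtain ⟨h1, x, hx, hx'⟩ := (hmem k j c).mp h
    exact (hmem k (j + 1) c).mpr ⟨h1, x, hx, near_mono_right (Nat.le_succ j) _ hx'⟩
  have hmono0 : ∀ k j, Sk k 0 ⊆ Sk k j := by
    intro k j
    induction j with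
    | zero => exact subset_refl _
    | succ j ih => exact ih.trans (hmono k j)
  have hcY : ∀ c ∈ S, ¬ vs c ⊆ Y := fun c h h' => hc c h (h'.trans hYR)
  by_cases hcase : ∃ k j, (Sk k 0).Nonempty ∧ j ≤ 8 ∧ Sk k j = Sk k (j + 1)
  · -- a layer is stable
    obtain ⟨k, j, hk0, hj, hst⟩ := hcase
    obtain ⟨P, hP⟩ : ∃ P, P = Sk k j := ⟨_, rfl⟩
    have hPS : P ⊆ S := by rw [hP]; exact hsubS k j
    have hPne : P.Nonempty := by rw [hP]; exact hk0.mono (hmono0 k j)
    have hin : ∀ c ∈ P, ∀ v ∈ vs c, v ∉ A → v ∈ near vs A (j + 1) (W k) := by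
      intro c h v hv hA
      rw [hP] at h
      obtain ⟨_, x, hx, hx'⟩ := (hmem k j c).mp h
      exact step hx hx' hv hA
    have hout : ∀ c ∈ S \ P, ∀ v ∈ vs c, v ∉ near vs A (j + 1) (W k) := by
      intro c h v hv hv'
      obtain ⟨h1, h2⟩ := mem_sdiff.mp h
      apply h2
      rw [hP, hst]
      exact (hmem k (j + 1) c).mpr ⟨h1, v, hv, hv'⟩
    have h1 : P.card < (P.biUnion vs \ (Y ∪ W k)).card := by
      refine (hW k).2.2 P hPne ((card_le_card hPS).trans hq) fun c h h' => ?_
      exact hc c (hPS h) (h'.trans (union_subset hYR (hWR k)))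
    have hsub1 : P.biUnion vs \ (Y ∪ W k) ⊆ P.biUnion vs \ R := by
      intro v hv
      obtain ⟨hv1, hv2⟩ := mem_sdiff.mp hv
      refine mem_sdiff.mpr ⟨hv1, fun hvR => ?_⟩
      obtain ⟨c, hc', hvc⟩ := mem_biUnion.mp hv1
      rw [hR] at hvR
      rcases mem_union.mp hvR with h | h
      · exact hv2 (mem_union_left _ h)
      · obtain ⟨l, _, hl⟩ := mem_biUnion.mp h
        by_cases hlk : l = k
        · rw [hlk] at hl
          exact hv2 (mem_union_right _ hl)
        · have hvA : v ∉ A := fun h' => hv2 (mem_union_left _ (hAY h'))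
          have e1 : v ∈ near vs A 10 (W k) :=
            near_mono_right (by omega) _ (hin c hc' v hvc hvA)
          have e2 : v ∈ near vs A 10 (W l) := near_mono_right (Nat.zero_le 10) _ hl
          exact Finset.disjoint_left.mp (hd l k hlk) e2 e1
    have hcardlt : (S \ P).card < n := by
      have := card_sdiff_add_card_inter S P
      have h3 : S ∩ P = P := inter_eq_right.mpr hPS
      rw [h3] at this
      have := card_pos.mpr hPne
      omega
    have h2 := (ih _ hcardlt (S \ P) rfl ((card_le_card sdiff_subset).trans hq)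
      (fun c h => hc c (mem_sdiff.mp h).1)).1
    have hdisj : Disjoint (P.biUnion vs \ R) ((S \ P).biUnion vs \ R) := by
      rw [Finset.disjoint_left]
      intro v hv hv'
      obtain ⟨hv1, hv2⟩ := mem_sdiff.mp hv
      obtain ⟨c, hc', hvc⟩ := mem_biUnion.mp hv1
      obtain ⟨hv3, _⟩ := mem_sdiff.mp hv'
      obtain ⟨c2, hc2, hvc2⟩ := mem_biUnion.mp hv3
      exact hout c2 hc2 v hvc2 (hin c hc' v hvc (fun h' => hv2 (hYR (hAY h'))))
    have hle : (P.biUnion vs \ R).card + ((S \ P).biUnion vs \ R).card ≤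
        (S.biUnion vs \ R).card := by
      rw [← card_union_of_disjoint hdisj]
      refine card_le_card (union_subset ?_ ?_)
      · exact sdiff_subset_sdiff (biUnion_subset_biUnion_of_subset_left vs hPS) (subset_refl _)
      · exact sdiff_subset_sdiff (biUnion_subset_biUnion_of_subset_left vs sdiff_subset)
          (subset_refl _)
    have h3 := card_le_card hsub1
    have h4 : P.card + (S \ P).card = S.card := by
      have := card_sdiff_add_card_inter S P
      have h3 : S ∩ P = P := inter_eq_right.mpr hPS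
      rw [h3] at this
      omega
    omega
  · -- all layers grow
    push Not at hcase
    obtain ⟨K, hK⟩ : ∃ K : Finset (Fin f), ∀ k, k ∈ K ↔ (Sk k 0).Nonempty := by
      classical
      exact ⟨univ.filter (fun k => (Sk k 0).Nonempty), fun k => by simp⟩
    have hgrow : ∀ k ∈ K, 10 ≤ (Sk k 9).card := by
      intro k hk
      have h0 := (hK k).mp hk
      have h5 : ∀ j, j ≤ 9 → j + 1 ≤ (Sk k j).card := by
        intro j
        induction j with
        | zero => intro _; exact card_pos.mpr h0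
        | succ j ih2 =>
          intro hj
          have h6 := ih2 (by omega)
          have h7 : Sk k j ⊂ Sk k (j + 1) :=
            (hmono k j).ssubset_of_ne (hcase k j h0 (by omega))
          have h8 := card_lt_card h7
          omega
      exact h5 9 le_rfl
    have hdis : ∀ k ∈ K, ∀ l ∈ K, k ≠ l → Disjoint (Sk k 9) (Sk l 9) := by
      intro k _ l _ hkl
      rw [Finset.disjoint_left]
      intro c h h'
      obtain ⟨hcS, x, hx, hx'⟩ := (hmem k 9 c).mp h
      obtain ⟨_, y, hy, hy'⟩ := (hmem l 9 c).mp h'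
      obtain ⟨v, hv, hvR⟩ := Finset.not_subset.mp (hc c hcS)
      have hvA : v ∉ A := fun h' => hvR (hYR (hAY h'))
      exact Finset.disjoint_left.mp (hd k l hkl) (step hx hx' hv hvA) (step hy hy' hv hvA)
    have h10 : 10 * K.card ≤ S.card := by
      have e1 : (K.biUnion (fun k => Sk k 9)).card = ∑ k ∈ K, (Sk k 9).card :=
        card_biUnion hdis
      have e2 : (K.biUnion (fun k => Sk k 9)).card ≤ S.card :=
        card_le_card (biUnion_subset.mpr fun k _ => hsubS k 9)
      have e3 : ∑ _k ∈ K, 10 ≤ ∑ k ∈ K, (Sk k 9).card := sum_le_sum hgrow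
      rw [sum_const, smul_eq_mul] at e3
      omega
    have hsub : S.biUnion vs \ Y ⊆ (S.biUnion vs \ R) ∪ K.biUnion W := by
      intro v hv
      obtain ⟨hv1, hv2⟩ := mem_sdiff.mp hv
      by_cases hvR : v ∈ R
      · rw [hR] at hvR
        rcases mem_union.mp hvR with h | h
        · exact absurd h hv2
        · obtain ⟨k, _, hk⟩ := mem_biUnion.mp h
          refine mem_union_right _ (mem_biUnion.mpr ⟨k, ?_, hk⟩)
          rw [hK]
          obtain ⟨c, hcS, hvc⟩ := mem_biUnion.mp hv1
          exact ⟨c, (hmem k 0 c).mpr ⟨hcS, v, hvc, hk⟩⟩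
      · exact mem_union_left _ (mem_sdiff.mpr ⟨hv1, hvR⟩)
    have hcard : (S.biUnion vs \ Y).card ≤ (S.biUnion vs \ R).card + 3 * K.card := by
      refine (card_le_card hsub).trans ((card_union_le _ _).trans ?_)
      have e1 : (K.biUnion W).card ≤ K.card * 3 :=
        card_biUnion_le_card_mul K W 3 fun k _ => (hW k).2.1
      omega
    have hexp := hY S hS hq hcY
    have hpos := card_pos.mpr hS
    omega

end

/-- MODULE SCAT. -/
theorem hScat : PScat := by
  intro ι V _ _ _ _ vs q f A Y W hAY hY hW hd S hS hq hc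
  exact (main hAY hY hW hd S.card S rfl hq hc).2 hS

end Helper22.TP
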